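import Mathlib
import Pool.Agent.X115.FCP

/-!
# The count of Fourier critical points of `f_{ν,n}` fails in case (a)

For `n = 1`, `ν = -201/100`, a point of the interval `(n - 2 s - 2, n - 2 s - 1)` with `s = 1`, the
function `f_{ν,1}` has no Fourier critical point, although the statement predicts exactly one.

Proof. With `G_j = 0F1(; ν + j + 1; x)` one has `f^(j) = const (2 x G_j' + (ν + 2 j) G_j)`, and at a
zero `c ≠ 0` of `f^(j+1)` the product `f^(j) f^(j+2)` has the sign of
`(c + ν (ν + 2 j) / 4) (c + ν (ν + 2 j + 2) / 4) / c`.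
-/

set_option autoImplicit false

open Finset Filter Topology Pool.Agent.X115.FCP

namespace Pool.Agent.Results.MP_6fe4ed_an.NoCriticalPoints

lemma sep : Pool.Agent.X115.FCP.Sep (-201 / 100) (1 / 100) := by
  refine ⟨by norm_num, fun i => ?_⟩
  rcases Nat.lt_or_ge i 2 with h | h
  · interval_cases i <;> norm_num [abs_le, abs_of_neg, abs_of_pos]
  · have : (2 : ℝ) ≤ i := by exact_mod_cast h
    rw [abs_of_pos (by linarith)]; linarith

/-- the ratio of consecutive terms -/
lemma ratio (j : ℕ) {c r : ℝ} (hc : |c| ≤ r) {m : ℕ} {q : ℝ}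
    (ha : 0 < 2 * (m : ℝ) + (-201 / 100 + 2 * j)) (hb : 0 < (-201 / 100 : ℝ) + j + 1 + m)
    (hq : r * (2 * ((m : ℝ) + 1) + (-201 / 100 + 2 * j)) ≤
      q * ((2 * m + (-201 / 100 + 2 * j)) * (m + 1) * (-201 / 100 + j + 1 + m))) :
    |tm (-201 / 100) j c (m + 1)| ≤ q * |tm (-201 / 100) j c m| := by
  rw [tm_succ sep j c m ha.ne', abs_mul, mul_comm]
  apply mul_le_mul_of_nonneg_right _ (abs_nonneg _)
  have a2 : 0 < 2 * ((m : ℝ) + 1) + (-201 / 100 + 2 * (j : ℝ)) := by linarith
  have a4 : 0 < (m : ℝ) + 1 := by positivity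
  rw [abs_div, abs_mul, abs_mul, abs_mul, abs_of_pos ha, abs_of_pos a2, abs_of_pos hb,
    abs_of_pos a4, div_le_iff₀ (by positivity)]
  refine le_trans ?_ hq
  exact mul_le_mul_of_nonneg_right hc a2.le

lemma no_zero_two {c : ℝ} (hc : c < 0) (hc' : -(503 / 100000) ≤ c) : F (-201 / 100) 2 c ≠ 0 := by
  have hac : |c| ≤ 503 / 100000 := by rw [abs_of_neg hc]; linarith
  have key := tail_bound sep 2 c 1 (q := 1 / 2) (by norm_num) (by norm_num) (by
    intro m hm
    have hm' : (1 : ℝ) ≤ m := by exact_mod_cast hm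
    apply ratio 2 hac
    · push_cast; linarith
    · push_cast; linarith
    · push_cast
      have b2 : (2 * (m : ℝ) + 1) * 2 * 1 ≤
          (2 * m + (-201 / 100 + 2 * 2)) * (m + 1) * (-201 / 100 + 2 + 1 + m) := by
        apply mul_le_mul (mul_le_mul (by linarith) (by linarith) (by norm_num) (by linarith))
          (by linarith) (by norm_num) (mul_nonneg (by linarith) (by linarith))
      nlinarith)
  simp only [range_one, sum_singleton] at key
  have t0 : tm (-201 / 100) 2 c 0 = 199 / 100 := by simp [tm, cf, poch]; norm_num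
  have t1 : tm (-201 / 100) 2 c 1 = (399 / 100) * c / (99 / 100) := by
    simp [tm, cf, poch]
    norm_num
    ring
  rw [t0, t1] at key
  have t2 : |(399 / 100) * c / (99 / 100)| ≤ 1 / 10 := by
    rw [abs_div, abs_mul, abs_of_pos (by norm_num : (0:ℝ) < 399 / 100),
      abs_of_pos (by norm_num : (0:ℝ) < 99 / 100), div_le_iff₀ (by norm_num)]
    nlinarith
  have t3 : |(399 / 100) * c / (99 / 100)| / (1 - 1 / 2) ≤ 1 / 5 := by
    rw [div_le_iff₀ (by norm_num)]
    linarith
  have t4 := (abs_le.1 (key.trans t3)).1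
  intro h0
  rw [h0] at t4
  linarith

lemma no_zero_one {c : ℝ} (hc : c ≤ -(5 / 1000)) (hc' : -(1010025 / 1000000) ≤ c) :
    F (-201 / 100) 1 c ≠ 0 := by
  have hac : |c| ≤ 10101 / 10000 := by rw [abs_of_neg (by linarith)]; linarith
  have key := tail_bound sep 1 c 5 (q := 1 / 10) (by norm_num) (by norm_num) (by
    intro m hm
    have hm' : (5 : ℝ) ≤ m := by exact_mod_cast hm
    apply ratio 1 hac
    · push_cast; linarith
    · push_cast; linarith
    · push_cast
      have b2 : (2 * (m : ℝ) - 1 / 100) * 6 * (499 / 100) ≤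
          (2 * m + (-201 / 100 + 2 * 1)) * (m + 1) * (-201 / 100 + 1 + 1 + m) := by
        apply mul_le_mul (mul_le_mul (by linarith) (by linarith) (by norm_num) (by linarith))
          (by linarith) (by norm_num) (mul_nonneg (by linarith) (by linarith))
      nlinarith)
  have t0 : tm (-201 / 100) 1 c 0 = -1 / 100 := by simp [tm, cf, poch]; norm_num
  have t1 : tm (-201 / 100) 1 c 1 = -199 * c := by
    simp [tm, cf, poch]
    norm_num
  have t2 : tm (-201 / 100) 1 c 2 = -(399 * 100 / 198) * c ^ 2 := by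
    simp [tm, cf, poch, prod_range_succ]
    norm_num
  have t3 : tm (-201 / 100) 1 c 3 = -(599 * 10000 / (6 * 99 * 199)) * c ^ 3 := by
    simp [tm, cf, poch, prod_range_succ, Nat.factorial]
    norm_num
  have t4 : tm (-201 / 100) 1 c 4 = -(799 * 1000000 / (24 * 99 * 199 * 299)) * c ^ 4 := by
    simp [tm, cf, poch, prod_range_succ, Nat.factorial]
    norm_num
  have t5 : tm (-201 / 100) 1 c 5 = -(999 * 100000000 / (120 * 99 * 199 * 299 * 399)) * c ^ 5 := by
    simp [tm, cf, poch, prod_range_succ, Nat.factorial]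
    norm_num
  simp only [sum_range_succ, range_zero, sum_empty, zero_add] at key
  rw [t0, t1, t2, t3, t4, t5] at key
  obtain ⟨y, rfl⟩ : ∃ y, c = -y := ⟨-c, by ring⟩
  have hy : 5 / 1000 ≤ y := by linarith
  have hy' : y ≤ 1010025 / 1000000 := by linarith
  have hy0 : 0 < y := by linarith
  have y2 : y ^ 2 ≤ 1.021 := by nlinarith
  have y3 : y ^ 3 ≤ 1.031 := by nlinarith [sq_nonneg y]
  have y4 : y ^ 4 ≤ 1.042 := by nlinarith [sq_nonneg y, sq_nonneg (y ^ 2)]
  have habs : |-(999 * 100000000 / (120 * 99 * 199 * 299 * 399)) * (-y) ^ 5| ≤ 36 / 100 * y ^ 5 := by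
    rw [abs_mul, abs_neg, abs_of_pos (by norm_num), abs_pow, abs_neg, abs_of_pos hy0]
    apply mul_le_mul_of_nonneg_right _ (by positivity)
    norm_num
  have hb : |-(999 * 100000000 / (120 * 99 * 199 * 299 * 399)) * (-y) ^ 5| / (1 - 1 / 10) ≤
      4 / 10 * y ^ 5 := by
    rw [div_le_iff₀ (by norm_num)]
    linarith
  have key2 := (abs_le.1 (key.trans hb)).1
  intro h0
  rw [h0] at key2
  have e1 : (-y) ^ 2 = y ^ 2 := by ring
  have e2 : (-y) ^ 3 = -y ^ 3 := by ring
  have e3 : (-y) ^ 4 = y ^ 4 := by ring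
  rw [e1, e2, e3] at key2
  have main : 40 ≤ 199 - 20152 / 100 * y + 5067 / 100 * y ^ 2 - 566 / 100 * y ^ 3 - 4 / 10 * y ^ 4 := by
    nlinarith
  have p1 : (399 * 100 / 198 : ℝ) ≤ 20152 / 100 := by norm_num
  have p2 : (5067 / 100 : ℝ) ≤ 599 * 10000 / (6 * 99 * 199) := by norm_num
  have p3 : (799 * 1000000 / (24 * 99 * 199 * 299) : ℝ) ≤ 566 / 100 := by norm_num
  have m1 : (399 * 100 / 198 : ℝ) * y ^ 2 ≤ 20152 / 100 * y ^ 2 :=
    mul_le_mul_of_nonneg_right p1 (by positivity)
  have m2 : (5067 / 100 : ℝ) * y ^ 3 ≤ 599 * 10000 / (6 * 99 * 199) * y ^ 3 :=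
    mul_le_mul_of_nonneg_right p2 (by positivity)
  have m3 : (799 * 1000000 / (24 * 99 * 199 * 299) : ℝ) * y ^ 4 ≤ 566 / 100 * y ^ 4 :=
    mul_le_mul_of_nonneg_right p3 (by positivity)
  have m4 : 40 * y ≤ (199 - 20152 / 100 * y + 5067 / 100 * y ^ 2 - 566 / 100 * y ^ 3 -
      4 / 10 * y ^ 4) * y := mul_le_mul_of_nonneg_right main hy0.le
  nlinarith

/-- **Main result.** For `ν = -201/100` the function `f_{ν,1}` has no Fourier critical point.
Consequently the assertion of Q1 is false (`n = 1`, `s = 1`). -/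
theorem result :
    ((-201 / 100 : ℝ) ∈ Set.Ioo ((1 : ℝ) - 2 * 1 - 2) (1 - 2 * 1 - 1) ∧
      ∀ c : ℝ, ¬ IsFourierCritical (f (-201 / 100) 1) c) ∧
    ¬ ∀ (s n : ℕ) (ν : ℝ), (∀ k : ℤ, ν ≠ k) →
      ν ∈ Set.Ioo ((n : ℝ) - 2 * s - 2) (n - 2 * s - 1) →
      {c : ℝ | IsFourierCritical (f ν n) c}.encard = s ∧
        ({x : ℝ | 0 < x ∧ f ν n x = 0}.encard = 1) := by
  have hν : ∀ k : ℤ, (-201 / 100 : ℝ) ≠ k := by
    intro k hk
    have a1 : (-3 : ℝ) < k := by rw [← hk]; norm_num
    have a2 : (k : ℝ) < -2 := by rw [← hk]; norm_num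
    have a3 : -3 < k := by exact_mod_cast a1
    have a4 : k < -2 := by exact_mod_cast a2
    omega
  have main : ∀ c : ℝ, ¬ IsFourierCritical (f (-201 / 100) 1) c := by
    refine no_critical_of sep hν fun j c hc => ?_
    have hj : (0 : ℝ) ≤ j := Nat.cast_nonneg j
    have hcneg : c < 0 := by
      by_contra hcon
      push Not at hcon
      rcases Nat.eq_zero_or_pos j with h | h
      · subst h
        -- all terms are nonpositive
        have h1 := hasSum_F sep 1 c
        have h2 : ∀ m : ℕ, (2 * (m : ℝ) + (-201 / 100 + 2 * ((1 : ℕ) : ℝ))) *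
            cf (-201 / 100 + ((1 : ℕ) : ℝ)) m * c ^ m ≤ 0 := by
          intro m
          rcases Nat.eq_zero_or_pos m with hm | hm
          · subst hm; simp [cf, poch]; norm_num
          · obtain ⟨k, rfl⟩ : ∃ k, m = k + 1 := ⟨m - 1, by omega⟩
            have hpoch : poch (-201 / 100 + ((1 : ℕ) : ℝ)) (k + 1) < 0 := by
              rw [poch_succ']
              apply mul_neg_of_neg_of_pos
              · push_cast; norm_num
              · unfold poch
                apply prod_pos
                intro i _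
                push_cast
                have : (0 : ℝ) ≤ i := Nat.cast_nonneg i
                linarith
            have hcf : cf (-201 / 100 + ((1 : ℕ) : ℝ)) (k + 1) ≤ 0 := by
              unfold cf
              apply div_nonpos_of_nonneg_of_nonpos zero_le_one
              exact mul_nonpos_of_nonneg_of_nonpos (by positivity) hpoch.le
            have hk : (0 : ℝ) ≤ k := Nat.cast_nonneg k
            have ha : 0 ≤ 2 * (((k + 1 : ℕ) : ℝ)) + (-201 / 100 + 2 * ((1 : ℕ) : ℝ)) := by
              push_cast; linarith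
            exact mul_nonpos_of_nonpos_of_nonneg (mul_nonpos_of_nonneg_of_nonpos ha hcf)
              (pow_nonneg hcon _)
        have h3 := sum_le_hasSum (range 1) (fun m _ => neg_nonneg.2 (h2 m)) h1.neg
        simp only [range_one, sum_singleton] at h3
        have hc1 : F (-201 / 100) 1 c = 0 := hc
        rw [hc1] at h3
        simp [cf, poch] at h3
        norm_num at h3
      · have : (1 : ℝ) ≤ j := by exact_mod_cast h
        have := F_pos sep (j + 1) hcon (by push_cast; linarith) (by push_cast; linarith)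
        linarith
    refine ⟨hcneg, ?_⟩
    rcases Nat.eq_zero_or_pos j with h | h
    · subst h
      push_cast
      by_contra hcon
      push Not at hcon
      have hc1 : F (-201 / 100) 1 c = 0 := hc
      -- c lies between the two roots
      have h1 : c ≤ -(5 / 1000) := by
        by_contra h1
        push Not at h1
        have : 0 < (c + -201 / 100 * (-201 / 100 + 2 * 0) / 4) *
            (c + -201 / 100 * (-201 / 100 + 2 * 0 + 2) / 4) := by
          apply mul_pos <;> nlinarith
        linarith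
      have h2 : -(1010025 / 1000000) ≤ c := by
        by_contra h2
        push Not at h2
        have : 0 < (c + -201 / 100 * (-201 / 100 + 2 * 0) / 4) *
            (c + -201 / 100 * (-201 / 100 + 2 * 0 + 2) / 4) := by
          apply mul_pos_of_neg_of_neg <;> nlinarith
        linarith
      exact no_zero_one h1 h2 hc1
    · have hj1 : (1 : ℝ) ≤ j := by exact_mod_cast h
      have hsec : c + -201 / 100 * (-201 / 100 + 2 * j + 2) / 4 < 0 := by nlinarith
      apply mul_pos_of_neg_of_neg _ hsec
      rcases Nat.lt_or_ge j 2 with h' | h'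
      · have : j = 1 := by omega
        subst this
        by_contra hcon
        push Not at hcon
        refine no_zero_two hcneg ?_ hc
        push_cast at hcon
        linarith
      · have hj2 : (2 : ℝ) ≤ j := by exact_mod_cast h'
        nlinarith
  refine ⟨⟨⟨by norm_num, by norm_num⟩, main⟩, fun H => ?_⟩
  have h1 := (H 1 1 (-201 / 100) hν (by push_cast; constructor <;> norm_num)).1
  have h2 : {c : ℝ | IsFourierCritical (f (-201 / 100) 1) c} = ∅ := by
    ext c
    simp only [Set.mem_ofPred_eq, Set.mem_empty_iff_false, iff_false]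
    exact main c
  rw [h2] at h1
  simp at h1

end Pool.Agent.Results.MP_6fe4ed_an.NoCriticalPoints
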